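import Mathlib

/-!
# Toeplitz minors of a product of forms `1 + y X`, `y ≥ 0`
-/

set_option autoImplicit false

open Polynomial

namespace Pool.Agent.H53.O4

/-- The minor with shifts `a`. -/
noncomputable def tD {K : ℕ} (a : Fin K → ℕ) (g : ℝ[X]) (k : ℕ) : ℝ :=
  Matrix.det (Matrix.of fun i j : Fin K => ((X : ℝ[X]) ^ (a i) * g).coeff (k + (j : ℕ)))

theorem tD_step {K : ℕ} (a : Fin K → ℕ) (g : ℝ[X]) (y : ℝ) (k : ℕ) :
    tD a ((1 + C y * X) * g) k = ∑ s : Finset (Fin K),
      y ^ (sᶜ).card * tD (fun i => if i ∈ s then a i else a i + 1) g k := by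
  set u : Fin K → Fin K → ℝ := fun i j => ((X : ℝ[X]) ^ (a i) * g).coeff (k + (j : ℕ)) with hu
  set v : Fin K → Fin K → ℝ := fun i j => ((X : ℝ[X]) ^ (a i + 1) * g).coeff (k + (j : ℕ)) with hv
  have h1 : tD a ((1 + C y * X) * g) k =
      (Matrix.detRowAlternating : (Fin K → ℝ) [⋀^Fin K]→ₗ[ℝ] ℝ).toMultilinearMap
        (u + fun i => y • v i) := by
    show Matrix.det _ = Matrix.det _
    congr 1
    ext i j
    simp only [Matrix.of_apply, Pi.add_apply, Pi.smul_apply, hu, hv, smul_eq_mul]
    have e : (X : ℝ[X]) ^ (a i) * ((1 + C y * X) * g) =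
        X ^ (a i) * g + C y * (X ^ (a i + 1) * g) := by ring
    rw [e, coeff_add, coeff_C_mul]
  rw [h1, MultilinearMap.map_add_univ]
  apply Finset.sum_congr rfl
  intro s _
  have h2 : s.piecewise u (fun i => y • v i) =
      (sᶜ).piecewise (fun i => (fun _ => y : Fin K → ℝ) i • (s.piecewise u v) i)
        (s.piecewise u v) := by
    ext i j
    by_cases hi : i ∈ s
    · simp [Finset.piecewise, hi]
    · simp [Finset.piecewise, hi]
  rw [h2, MultilinearMap.map_piecewise_smul]
  simp only [Finset.prod_const, smul_eq_mul]
  congr 1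
  show Matrix.det _ = Matrix.det _
  congr 1
  ext i j
  by_cases hi : i ∈ s
  · simp [Finset.piecewise, hi, hu]
  · simp [Finset.piecewise, hi, hv]

theorem tD_shift_mono {K : ℕ} {a : Fin K → ℕ} (ha : StrictMono a) (s : Finset (Fin K)) :
    Monotone (fun i => if i ∈ s then a i else a i + 1) := by
  intro i j hij
  rcases hij.eq_or_lt with rfl | h
  · exact le_rfl
  · have := ha h
    dsimp only
    split_ifs <;> omega

theorem tD_nonneg {K : ℕ} (G : List ℝ) (hG : ∀ y ∈ G, 0 ≤ y) : ∀ (a : Fin K → ℕ),
    StrictMono a → ∀ k : ℕ, 0 ≤ tD a (G.map fun y => 1 + C y * X).prod k := by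
  induction G with
  | nil =>
    intro a ha k
    simp only [List.map_nil, List.prod_nil]
    unfold tD
    simp only [mul_one, coeff_X_pow]
    by_cases h : ∃ i, ∀ j : Fin K, k + (j : ℕ) ≠ a i
    · obtain ⟨i, hi⟩ := h
      rw [Matrix.det_eq_zero_of_row_eq_zero i]
      intro j
      simp [hi j]
    · push Not at h
      choose c hc using h
      have hmono : StrictMono c := by
        intro i j hij
        have h1 := ha hij
        have h2 := hc i
        have h3 := hc j
        rw [Fin.lt_def]
        omega
      have hid : ∀ i, c i = i := by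
        intro i
        have h1 : c = id := by
          have h2 : Function.Injective c := hmono.injective
          have h3 : Function.Bijective c := Finite.injective_iff_bijective.mp h2
          have h4 : ∀ i, i ≤ c i := fun i => hmono.id_le i
          let e : Fin K ≃o Fin K := StrictMono.orderIsoOfSurjective c hmono h3.surjective
          have h5 : e = OrderIso.refl (Fin K) := Subsingleton.elim _ _
          funext i
          have : e i = i := by rw [h5]; rfl
          exact this
        rw [h1]; rfl
      have hM : (Matrix.of fun i j : Fin K => if k + (j : ℕ) = a i then (1 : ℝ) else 0) = 1 := by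
        ext i j
        have h1 := hc i
        rw [hid i] at h1
        simp only [Matrix.of_apply, Matrix.one_apply]
        by_cases hij : i = j
        · subst hij
          simp [h1]
        · rw [if_neg hij, if_neg]
          intro h2
          apply hij
          apply Fin.ext
          omega
      rw [hM, Matrix.det_one]
      norm_num
  | cons y G ih =>
    intro a ha k
    have hy : 0 ≤ y := hG y (by simp)
    have ih' := ih (fun z hz => hG z (by simp [hz]))
    rw [List.map_cons, List.prod_cons, tD_step]
    apply Finset.sum_nonneg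
    intro s _
    apply mul_nonneg (by positivity)
    have hm := tD_shift_mono ha s
    by_cases hinj : Function.Injective (fun i => if i ∈ s then a i else a i + 1)
    · exact ih' _ (hm.strictMono_of_injective hinj) k
    · obtain ⟨i, j, hij, hne⟩ : ∃ i j, (fun i => if i ∈ s then a i else a i + 1) i =
          (fun i => if i ∈ s then a i else a i + 1) j ∧ i ≠ j := by
        by_contra hcon
        push Not at hcon
        exact hinj fun i j h => hcon i j h
      unfold tD
      rw [Matrix.det_zero_of_row_eq hne]
      funext l
      simp only [Matrix.of_apply]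
      rw [show (if i ∈ s then a i else a i + 1) = (if j ∈ s then a j else a j + 1) from hij]

theorem toe_nonneg {K : ℕ} (a : Fin K → ℕ) (ha : StrictMono a) (G : List ℝ)
    (hG : ∀ y ∈ G, 0 ≤ y) (k : ℕ) :
    0 ≤ Matrix.det (Matrix.of fun i j : Fin K =>
      ((X : ℝ[X]) ^ (a i) * (G.map fun y => 1 + C y * X).prod).coeff (k + (j : ℕ))) :=
  tD_nonneg G hG a ha k

theorem toe_pos {K : ℕ} (G : List ℝ) (hG : ∀ y ∈ G, 0 < y) (k : ℕ) (hk : k ≤ G.length) :
    0 < Matrix.det (Matrix.of fun i j : Fin K =>
      ((X : ℝ[X]) ^ (i : ℕ) * (G.map fun y => 1 + C y * X).prod).coeff (k + (j : ℕ))) := by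
  show 0 < tD (fun i : Fin K => (i : ℕ)) (G.map fun y => 1 + C y * X).prod k
  have hid : StrictMono (fun i : Fin K => (i : ℕ)) := fun i j h => h
  induction G generalizing k with
  | nil =>
    have hk0 : k = 0 := by simpa using hk
    subst hk0
    unfold tD
    simp only [List.map_nil, List.prod_nil, mul_one, coeff_X_pow, zero_add]
    have hM : (Matrix.of fun i j : Fin K => if (j : ℕ) = (i : ℕ) then (1 : ℝ) else 0) = 1 := by
      ext i j
      simp only [Matrix.of_apply, Matrix.one_apply]
      by_cases hij : i = j
      · subst hij; simp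
      · rw [if_neg hij, if_neg]
        intro h2
        exact hij (Fin.ext h2.symm)
    rw [hM, Matrix.det_one]
    norm_num
  | cons y G ih =>
    have hy : 0 < y := hG y (by simp)
    have hG' : ∀ z ∈ G, 0 < z := fun z hz => hG z (by simp [hz])
    have hG0 : ∀ z ∈ G, 0 ≤ z := fun z hz => (hG' z hz).le
    rw [List.map_cons, List.prod_cons, tD_step]
    have hnn : ∀ s ∈ (Finset.univ : Finset (Finset (Fin K))),
        0 ≤ y ^ (sᶜ).card * tD (fun i : Fin K => if i ∈ s then (i : ℕ) else (i : ℕ) + 1)
          (G.map fun y => 1 + C y * X).prod k := by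
      intro s _
      apply mul_nonneg (by positivity)
      have hm := tD_shift_mono hid s
      by_cases hinj : Function.Injective (fun i : Fin K => if i ∈ s then (i : ℕ) else (i : ℕ) + 1)
      · exact tD_nonneg G hG0 _ (hm.strictMono_of_injective hinj) k
      · obtain ⟨i, j, hij, hne⟩ : ∃ i j : Fin K,
            (fun i : Fin K => if i ∈ s then (i : ℕ) else (i : ℕ) + 1) i =
            (fun i : Fin K => if i ∈ s then (i : ℕ) else (i : ℕ) + 1) j ∧ i ≠ j := by
          by_contra hcon
          push Not at hcon
          exact hinj fun i j h => hcon i j h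
        unfold tD
        rw [Matrix.det_zero_of_row_eq hne]
        funext l
        simp only [Matrix.of_apply]
        rw [show (if i ∈ s then (i : ℕ) else (i : ℕ) + 1) =
          (if j ∈ s then (j : ℕ) else (j : ℕ) + 1) from hij]
    rcases Nat.lt_or_ge G.length k with h1 | h1
    · have hk' : k = G.length + 1 := by simp only [List.length_cons] at hk; omega
      apply Finset.sum_pos' hnn
      refine ⟨∅, Finset.mem_univ _, ?_⟩
      apply mul_pos (by positivity)
      have h2 := ih hG' (k - 1) (by omega)
      have h3 : tD (fun i : Fin K => if i ∈ (∅ : Finset (Fin K)) then (i : ℕ) else (i : ℕ) + 1)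
          (G.map fun y => 1 + C y * X).prod k =
          tD (fun i : Fin K => (i : ℕ)) (G.map fun y => 1 + C y * X).prod (k - 1) := by
        unfold tD
        congr 1
        ext i j
        simp only [Finset.notMem_empty, if_false, Matrix.of_apply]
        rw [pow_succ', mul_assoc, show k + (j : ℕ) = (k - 1 + j) + 1 by omega, coeff_X_mul]
      rw [h3]
      exact h2
    · apply Finset.sum_pos' hnn
      refine ⟨Finset.univ, Finset.mem_univ _, ?_⟩
      apply mul_pos (by positivity)
      have h2 := ih hG' k h1
      simpa using h2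

end Pool.Agent.H53.O4
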